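import Mathlib

set_option autoImplicit false

namespace Pool.Agent.Results.MP_512501_an.Counter

open Polynomial

/-- the polynomial c (X - x_1) ... (X - x_n) -/
noncomputable def poly (c : ℝ) (l : List ℝ) : ℝ[X] := C c * (l.map fun a => X - C a).prod

def L : List ℕ := [0, 0, 87, 186, 339, 516, 774, 1158, 1428, 1755, 2346, 2667, 2829, 3588, 3654, 3750, 3924, 4023, 4800, 4800, 4800, 4800, 4800, 4800, 4800, 4800, 4800, 4800, 4800, 4800, 4800, 4800, 4800, 4800, 4800, 4800, 4800, 4800]

def bd : List ℕ → ℕ → ℕ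
  | [], _ => 1
  | a :: l, j => ((j + 1 - a) + (a - j)) * bd l j

def chk (top : ℕ) : ℕ → Bool
  | 0 => true
  | j + 1 => Nat.ble (bd L j) top && chk top j

lemma chk_ok : chk (bd L 5999) 6000 = true := by decide +kernel

lemma chk_spec {top : ℕ} : ∀ {n : ℕ}, chk top n = true → ∀ j < n, bd L j ≤ top := by
  intro n
  induction n with
  | zero => intro _ j hj; omega
  | succ n ih =>
    intro h j hj
    simp only [chk, Bool.and_eq_true, Nat.ble_eq] at h
    rcases Nat.lt_succ_iff_lt_or_eq.mp hj with h' | rfl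
    · exact ih h.2 j h'
    · exact h.1

noncomputable def rt (a : ℕ) : ℝ := a / 3000 - 1

def pd : List ℕ → ℤ → ℤ × ℤ
  | [], _ => (1, 0)
  | a :: l, j => ((j - a) * (pd l j).1, (pd l j).1 + (j - a) * (pd l j).2)

lemma pd_spec (l : List ℕ) (j : ℤ) :
    (((l.map rt).map fun a : ℝ => X - C a).prod.eval ((j : ℝ) / 3000 - 1)) * 3000 ^ l.length
      = ((pd l j).1 : ℝ) ∧
    (((l.map rt).map fun a : ℝ => X - C a).prod.derivative.eval ((j : ℝ) / 3000 - 1)) * 3000 ^ l.length
      = ((pd l j).2 : ℝ) * 3000 := by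
  induction l with
  | nil => simp [pd]
  | cons a l ih =>
    obtain ⟨h1, h2⟩ := ih
    simp only [List.map_cons, List.prod_cons, eval_mul, eval_sub, eval_X, eval_C, derivative_mul,
      derivative_sub, derivative_X, derivative_C, eval_add, List.length_cons, pow_succ, pd, rt,
      eval_one, eval_zero]
    push_cast
    constructor
    · rw [← h1]; ring
    · rw [← h1]; linear_combination ((j : ℝ) - a) * h2

lemma bd_spec (l : List ℕ) (j : ℕ) (x : ℝ) (h1 : (j : ℝ) ≤ (x + 1) * 3000)
    (h2 : (x + 1) * 3000 ≤ j + 1) :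
    |((l.map rt).map fun a : ℝ => X - C a).prod.eval x| * 3000 ^ l.length ≤ (bd l j : ℝ) := by
  induction l with
  | nil => simp [bd]
  | cons a l ih =>
    simp only [List.map_cons, List.prod_cons, eval_mul, eval_sub, eval_X, eval_C,
      List.length_cons, pow_succ, bd, abs_mul]
    have h3 : |x - rt a| * 3000 ≤ ((j + 1 - a) + (a - j) : ℕ) := by
      have e : |x - rt a| * 3000 = |(x + 1) * 3000 - a| := by
        rw [← abs_of_pos (show (0 : ℝ) < 3000 by norm_num), ← abs_mul, rt]
        congr 1; norm_num; ring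
      have b1 : (j : ℝ) + 1 - a ≤ ((j + 1 - a) + (a - j) : ℕ) := by
        have : (j : ℤ) + 1 - a ≤ ((j + 1 - a) + (a - j) : ℕ) := by omega
        exact_mod_cast this
      have b2 : (a : ℝ) - j ≤ ((j + 1 - a) + (a - j) : ℕ) := by
        have : (a : ℤ) - j ≤ ((j + 1 - a) + (a - j) : ℕ) := by omega
        exact_mod_cast this
      rw [e, abs_le]; constructor <;> linarith
    have := mul_le_mul h3 ih (by positivity) (by positivity)
    rw [Nat.cast_mul]
    linarith

theorem result : ¬ ∀ (c : ℝ) (l : List ℝ), c ≠ 0 → 1 ≤ l.length →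
    (∀ a ∈ l, a ∈ Set.Icc (-1 : ℝ) 1) →
    (∀ x ∈ Set.Icc (-1 : ℝ) 1, |(poly c l).eval x| ≤ |(poly c l).eval 1|) →
    ∀ x ∈ Set.Icc (-1 : ℝ) 1, |(poly c l).derivative.eval x| ≤
      max |(poly c l).derivative.eval (-1)| |(poly c l).derivative.eval 1| := by
  intro H
  have p0 : (0 : ℝ) < 3000 ^ L.length := by positivity
  have key := H 1 (L.map rt) one_ne_zero (by simp [L]) (by
    intro a ha
    obtain ⟨b, hb, rfl⟩ := List.mem_map.mp ha
    have : b ≤ 6000 := (by decide : ∀ b ∈ L, b ≤ 6000) b hb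
    have h : (b : ℝ) ≤ 6000 := by exact_mod_cast this
    have h0 : (0 : ℝ) ≤ b := Nat.cast_nonneg b
    unfold rt; constructor <;> linarith) (by
    intro x hx
    simp only [poly, C_1, one_mul]
    obtain ⟨j, hj, h1, h2⟩ : ∃ j : ℕ, j < 6000 ∧ (j : ℝ) ≤ (x + 1) * 3000 ∧
        (x + 1) * 3000 ≤ j + 1 := by
      have h0 : 0 ≤ (x + 1) * 3000 := by linarith [hx.1]
      by_cases h : x = 1
      · exact ⟨5999, by norm_num, by rw [h]; norm_num, by rw [h]; norm_num⟩
      · refine ⟨⌊(x + 1) * 3000⌋₊, ?_, Nat.floor_le h0, (Nat.lt_floor_add_one _).le⟩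
        rw [Nat.floor_lt h0]
        have := lt_of_le_of_ne hx.2 h
        push_cast; linarith
    have a1 := bd_spec L j x h1 h2
    have a2 : (bd L j : ℝ) ≤ bd L 5999 := by exact_mod_cast chk_spec chk_ok j hj
    have a3 := (pd_spec L 6000).1
    have a4 : (pd L 6000).1 = bd L 5999 := by decide +kernel
    rw [a4] at a3
    norm_num only at a3
    refine le_trans ?_ (le_abs_self _)
    refine le_of_mul_le_mul_right ?_ p0
    rw [a3]
    exact a1.trans a2) (15 / 3000 - 1) (by norm_num)
  simp only [poly, C_1, one_mul] at key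
  have b1 := (pd_spec L 15).2
  have b2 := (pd_spec L 0).2
  have b3 := (pd_spec L 6000).2
  have c1 : |(pd L 0).2| < |(pd L 15).2| := by decide +kernel
  have c2 : |(pd L 6000).2| < |(pd L 15).2| := by decide +kernel
  have d1 : |((pd L 0).2 : ℝ)| < |((pd L 15).2 : ℝ)| := by exact_mod_cast c1
  have d2 : |((pd L 6000).2 : ℝ)| < |((pd L 15).2 : ℝ)| := by exact_mod_cast c2
  have e1 := congrArg abs b1
  have e2 := congrArg abs b2
  have e3 := congrArg abs b3
  rw [abs_mul, abs_mul, abs_of_pos p0] at e1 e2 e3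
  norm_num only at e1 e2 e3 key
  rcases le_max_iff.mp key with h | h
  · have := mul_le_mul_of_nonneg_right h p0.le
    rw [e1, e2] at this
    norm_num at this; linarith
  · have := mul_le_mul_of_nonneg_right h p0.le
    rw [e1, e3] at this
    norm_num at this; linarith

end Pool.Agent.Results.MP_512501_an.Counter
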